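import Pool.Agent.H83.G.Targets1

/-!
# (KER) kernels of the cap multipliers
-/

set_option autoImplicit false

namespace Pool.Agent.H18.G

open MeasureTheory Set Pool.Agent.H83.G
open scoped ENNReal NNReal RealInnerProductSpace

namespace KER

lemma e_add (x y : ℝ) : e (x + y) = e x * e y := by
  unfold e
  rw [← Complex.exp_add]
  congr 1
  push_cast
  ring

lemma norm_e (x : ℝ) : ‖e x‖ = 1 := by
  unfold e; exact Complex.norm_exp_ofReal_mul_I _

lemma continuous_e : Continuous e := by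
  unfold e
  fun_prop

/-- the cut-off -/
lemma cut : ∃ χ : ℝ → ℝ, ContDiff ℝ (⊤ : ℕ∞) χ ∧ (∀ x, χ x ≠ 0 → 1 / 8 ≤ x ∧ x ≤ 16) ∧
    ∀ x, 1 / 4 ≤ x → x ≤ 8 → χ x = 1 := by
  let b : ContDiffBump (33 / 8 : ℝ) := ⟨31 / 8, 4, by norm_num, by norm_num⟩
  refine ⟨b, b.contDiff, fun x hx => ?_, fun x h1 h2 => ?_⟩
  · have h : dist x (33 / 8) < 4 := by
      by_contra hn
      push Not at hn
      exact hx (b.zero_of_le_dist hn)
    rw [Real.dist_eq, abs_lt] at h
    constructor <;> linarith [h.1, h.2]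
  · refine b.one_of_mem_closedBall ?_
    rw [Metric.mem_closedBall, Real.dist_eq, abs_le]
    constructor
    · show -(31 / 8 : ℝ) ≤ _
      linarith
    · show _ ≤ (31 / 8 : ℝ)
      linarith

/-- the shift -/
noncomputable def sh {m : ℕ} (η : E m) (s : ℝ) (u : ℝ × E m) : Z m :=
  (u.1 - s⁻¹ * ⟪u.2, η⟫, s⁻¹ • u.2, 0)

lemma ph_sh {m : ℕ} (η : E m) (s : ℝ) (u : ℝ × E m) (z ζ : Z m) :
    ph (z - sh η s u) ζ = ph z ζ + -(u.1 * ζ.1 + ⟪u.2, s⁻¹ • (ζ.2.1 - ζ.1 • η)⟫) := by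
  unfold ph sh
  simp only [Prod.fst_sub, Prod.snd_sub, inner_sub_left, inner_sub_right, real_inner_smul_left,
    real_inner_smul_right]
  ring

lemma continuous_ph {m : ℕ} (z : Z m) : Continuous fun ζ : Z m => ph z ζ := by
  unfold ph
  fun_prop

lemma main {m : ℕ} (hIVY : T_IVY) (φ : E m → ℂ) (χ : ℝ → ℝ) (M : ℝ × E m → ℂ)
    (hM : M = fun ζ => (χ ζ.1 : ℂ) * φ (ζ.1⁻¹ • ζ.2)) (hMs : ContDiff ℝ (⊤ : ℕ∞) M)
    (hMc : HasCompactSupport M) (hχ : ∀ x, 1 / 4 ≤ x → x ≤ 8 → χ x = 1)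
    (η : E m) (s : ℝ) (G : Z m → ℂ) (hG : TC G)
    (hGs : ∀ ζ, G ζ ≠ 0 → 1 / 4 ≤ ζ.1 ∧ ζ.1 ≤ 8) (z : Z m) :
    TP φ η s G z = ∫ u : ℝ × E m, TY M u * TF G (z - sh η s u) := by
  obtain ⟨hK, hinv⟩ := hIVY m M hMs hMc
  have hGi : Integrable G := hG.1.continuous.integrable_of_hasCompactSupport hG.2
  have h1 : ∀ ζ : Z m, e (ph z ζ) * (cp φ η s ζ * G ζ) =
      ∫ u : ℝ × E m, e (ph (z - sh η s u) ζ) * (TY M u * G ζ) := by
    intro ζ
    by_cases h0 : G ζ = 0
    · simp [h0]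
    · obtain ⟨ha, hb⟩ := hGs ζ h0
      have ha0 : ζ.1 ≠ 0 := by
        have : 0 < ζ.1 := by linarith
        exact this.ne'
      have h2 : cp φ η s ζ = M (ζ.1, s⁻¹ • (ζ.2.1 - ζ.1 • η)) := by
        rw [hM]
        simp only [cp, hχ ζ.1 ha hb, Complex.ofReal_one, one_mul]
        congr 1
        rw [smul_comm ζ.1⁻¹ s⁻¹, smul_sub ζ.1⁻¹, smul_smul ζ.1⁻¹ ζ.1, inv_mul_cancel₀ ha0, one_smul]
      rw [h2, ← hinv, mul_comm _ (G ζ), ← mul_assoc, ← integral_const_mul]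
      refine integral_congr_ae (Filter.Eventually.of_forall fun u => ?_)
      simp only [ph_sh, e_add]
      ring
  unfold TP TF
  simp only [h1]
  rw [integral_integral_swap]
  · refine integral_congr_ae (Filter.Eventually.of_forall fun u => ?_)
    simp only []
    rw [← integral_const_mul]
    refine integral_congr_ae (Filter.Eventually.of_forall fun ζ => ?_)
    simp only []
    ring
  · have h3 : Integrable (fun q : Z m × (ℝ × E m) => G q.1 * TY M q.2) := hGi.mul_prod hK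
    have h4 : Continuous fun q : Z m × (ℝ × E m) => e (ph (z - sh η s q.2) q.1) := by
      refine continuous_e.comp ?_
      unfold ph sh
      fun_prop
    have h5 := h3.bdd_mul (c := 1) h4.aestronglyMeasurable
      (Filter.Eventually.of_forall fun q => (norm_e _).le)
    refine h5.congr (Filter.Eventually.of_forall fun q => ?_)
    simp only [Function.uncurry]
    ring

end KER

open KER in
theorem pf_KER (hDCY : T_DCY) (hIVY : T_IVY) (hBPD : T_BPD) : T_KER := by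
  intro m L
  obtain ⟨χ, hχs, hχ0, hχ1⟩ := cut
  obtain ⟨B, hB, hBP⟩ := hBPD m L χ hχs hχ0
  obtain ⟨C, hC, hD⟩ := hDCY m L 16
  refine ⟨(C * B).toNNReal, fun φ hφ η s G hs hG hGs z => ?_⟩
  obtain ⟨hMs, hM16, hMd⟩ := hBP φ hφ
  set M : ℝ × E m → ℂ := fun ζ => (χ ζ.1 : ℂ) * φ (ζ.1⁻¹ • ζ.2) with hM
  have hMc : HasCompactSupport M := by
    refine HasCompactSupport.intro (isCompact_closedBall (0 : ℝ × E m) 16) fun ζ hζ => ?_
    by_contra h
    apply hζ
    rw [Metric.mem_closedBall, dist_zero_right]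
    exact hM16 ζ h
  rw [main hIVY φ χ M hM hMs hMc hχ1 η s G hG hGs z]
  refine (enorm_integral_le_lintegral_enorm _).trans ?_
  rw [← lintegral_const_mul' _ _ ENNReal.coe_ne_top]
  refine lintegral_mono fun u => ?_
  simp only []
  rw [enorm_mul, ← mul_assoc]
  refine mul_le_mul' ?_ le_rfl
  have h1 := hD M B hB.le hMs hM16 hMd u
  have h2 : ((C * B).toNNReal : ℝ≥0∞) = ENNReal.ofReal (C * B) := rfl
  rw [h2, ← ENNReal.ofReal_mul (by positivity), ← ofReal_norm]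
  exact ENNReal.ofReal_le_ofReal h1

end Pool.Agent.H18.G
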