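import Pool.Agent.H83.G.Targets1

/-!
# (PSX) band limited partition functions exist
-/

set_option autoImplicit false

namespace Pool.Agent.H18.G

open MeasureTheory Set Pool.Agent.H83.G FourierTransform
open scoped ENNReal NNReal RealInnerProductSpace Convolution SchwartzMap

namespace PSX

lemma e_add (x y : ℝ) : e (x + y) = e x * e y := by
  unfold e
  rw [← Complex.exp_add]
  congr 1
  push_cast
  ring

lemma norm_e (x : ℝ) : ‖e x‖ = 1 := by
  unfold e; exact Complex.norm_exp_ofReal_mul_I _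

lemma e_neg (x : ℝ) : e (-x) = (starRingEnd ℂ) (e x) := by
  unfold e
  rw [← Complex.exp_conj, map_mul, Complex.conj_ofReal, Complex.conj_I]
  congr 1
  push_cast
  ring

/-- one dimensional inverse Fourier transform -/
noncomputable def t1 (X : ℝ → ℂ) (x : ℝ) : ℂ := ∫ ξ, e (x * ξ) * X ξ

lemma continuous_e_mul (x : ℝ) : Continuous fun ξ : ℝ => e (x * ξ) := by
  unfold e
  fun_prop

lemma integrable_e {X : ℝ → ℂ} (hX : Integrable X) (x : ℝ) :
    Integrable fun ξ => e (x * ξ) * X ξ := by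
  refine hX.bdd_mul (c := 1) (continuous_e_mul x).aestronglyMeasurable ?_
  exact Filter.Eventually.of_forall fun z => (norm_e _).le

lemma t1_conv {X Y : ℝ → ℂ} (hX : Integrable X) (hY : Integrable Y) (x : ℝ) :
    t1 (X ⋆[ContinuousLinearMap.mul ℝ ℂ, volume] Y) x = t1 X x * t1 Y x := by
  have h1 : ∀ z, e (x * z) * (X ⋆[ContinuousLinearMap.mul ℝ ℂ, volume] Y) z =
      ((fun ξ => e (x * ξ) * X ξ) ⋆[ContinuousLinearMap.mul ℝ ℂ, volume]
        (fun ξ => e (x * ξ) * Y ξ)) z := by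
    intro z
    unfold convolution
    rw [← integral_const_mul]
    refine integral_congr_ae (Filter.Eventually.of_forall fun t => ?_)
    have h2 : e (x * z) = e (x * t) * e (x * (z - t)) := by
      rw [← e_add]
      congr 1
      ring
    simp only [ContinuousLinearMap.mul_apply']
    rw [h2]
    ring
  have h3 := integral_convolution (ContinuousLinearMap.mul ℝ ℂ)
    (integrable_e hX x) (integrable_e hY x) (μ := volume) (ν := volume)
  unfold t1
  simp only [h1]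
  exact h3

/-- the one dimensional construction -/
lemma one (c : ℝ) (hc : 0 < c) (hc1 : c < 1) : ∃ (P : ℝ → ℂ) (p : ℝ → ℝ),
    ContDiff ℝ (⊤ : ℕ∞) P ∧ HasCompactSupport P ∧ (∀ ξ, P ξ ≠ 0 → |ξ| ≤ c) ∧
    (∀ x, (p x : ℂ) = t1 P x) ∧ (∀ x, 0 ≤ p x) ∧ ∀ x, HasSum (fun l : ℤ => p (x - l)) 1 := by
  let b : ContDiffBump (0 : ℝ) := ⟨c / 4, c / 2, by positivity, by linarith⟩
  let X : ℝ → ℂ := fun ξ => ((b ξ : ℝ) : ℂ)
  have hXs : ContDiff ℝ (⊤ : ℕ∞) X := Complex.ofRealCLM.contDiff.comp b.contDiff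
  have hbc : HasCompactSupport (b : ℝ → ℝ) := b.hasCompactSupport
  have hXc : HasCompactSupport X := hbc.comp_left (g := fun r : ℝ => (r : ℂ)) (by simp)
  have hX0 : ∀ ξ, X ξ ≠ 0 → |ξ| ≤ c / 2 := by
    intro ξ h
    by_contra hn
    push Not at hn
    apply h
    have : b ξ = 0 := b.zero_of_le_dist (by
      show c / 2 ≤ dist ξ 0
      rw [dist_zero_right]; exact hn.le)
    simp [X, this]
  let Y : ℝ → ℂ := fun ξ => X (-ξ)
  have hYs : ContDiff ℝ (⊤ : ℕ∞) Y := hXs.comp contDiff_neg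
  have hYc : HasCompactSupport Y := hXc.comp_homeomorph (Homeomorph.neg ℝ)
  have hXi : Integrable X := hXs.continuous.integrable_of_hasCompactSupport hXc
  have hYi : Integrable Y := hYs.continuous.integrable_of_hasCompactSupport hYc
  -- mass
  set M : ℝ := ∫ t, b t * b t with hM
  have hMpos : 0 < M := by
    have hcont : Continuous fun t => b t * b t := b.continuous.mul b.continuous
    refine hcont.integral_pos_of_hasCompactSupport_nonneg_nonzero
      (hbc.mul_left (f := fun t => b t)) (fun t => mul_self_nonneg _) (x := 0) ?_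
    have : b 0 = 1 := b.one_of_mem_closedBall (by
      simp [Metric.mem_closedBall]
      exact b.rIn_pos.le)
    simp [this]
  let Q : ℝ → ℂ := X ⋆[ContinuousLinearMap.mul ℝ ℂ, volume] Y
  have hQs : ContDiff ℝ (⊤ : ℕ∞) Q :=
    hYc.contDiff_convolution_right _ hXi.locallyIntegrable hYs
  have hQc : HasCompactSupport Q := hXc.convolution _ hYc
  have hQ0 : ∀ ξ, Q ξ ≠ 0 → |ξ| ≤ c := by
    intro ξ h
    by_contra hn
    push Not at hn
    apply h
    show ∫ t, X t * Y (ξ - t) = 0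
    rw [integral_eq_zero_of_ae]
    refine Filter.Eventually.of_forall fun t => ?_
    show X t * Y (ξ - t) = 0
    by_contra h2
    have h3 : X t ≠ 0 := left_ne_zero_of_mul h2
    have h4 : X (-(ξ - t)) ≠ 0 := right_ne_zero_of_mul h2
    have h5 := hX0 _ h3
    have h6 := hX0 _ h4
    rw [abs_neg] at h6
    have h7 : |ξ| ≤ |ξ - t| + |t| := by
      have := abs_add_le (ξ - t) t
      rwa [sub_add_cancel] at this
    linarith
  have hQ00 : Q 0 = (M : ℂ) := by
    show ∫ t, X t * X (-(0 - t)) = _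
    rw [hM, ← integral_complex_ofReal]
    refine integral_congr_ae (Filter.Eventually.of_forall fun t => ?_)
    simp [X]
  have hT : ∀ x, t1 Q x = ((‖t1 X x‖ ^ 2 : ℝ) : ℂ) := by
    intro x
    have h1 : t1 Y x = (starRingEnd ℂ) (t1 X x) := by
      unfold t1
      rw [← integral_conj]
      have h2 : ∀ ξ, (starRingEnd ℂ) (e (x * ξ) * X ξ) = e (x * (-ξ)) * Y (-ξ) := by
        intro ξ
        rw [map_mul, ← e_neg]
        simp only [Y, neg_neg, X, Complex.conj_ofReal, mul_neg]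
      simp only [h2]
      exact (integral_neg_eq_self (fun ξ => e (x * ξ) * Y ξ) volume).symm
    rw [t1_conv hXi hYi, h1, Complex.mul_conj]
    rw [Complex.normSq_eq_norm_sq]
  -- Schwartz function
  let P : ℝ → ℂ := fun ξ => ((M⁻¹ : ℝ) : ℂ) * Q ξ
  have hPs : ContDiff ℝ (⊤ : ℕ∞) P := contDiff_const.mul hQs
  have hPc : HasCompactSupport P := hQc.mul_left
  let S : 𝓢(ℝ, ℂ) := hPc.toSchwartzMap hPs
  have hS : ∀ ξ, S ξ = P ξ := fun ξ => rfl
  let f : 𝓢(ℝ, ℂ) := 𝓕⁻ S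
  have hft : ∀ x, f x = t1 P x := by
    intro x
    have h1 : f x = 𝓕⁻ (⇑S) x := by
      rw [← SchwartzMap.fourierInv_coe]
    rw [h1, Real.fourierInv_eq']
    unfold t1
    refine integral_congr_ae (Filter.Eventually.of_forall fun ξ => ?_)
    simp only [hS, smul_eq_mul]
    congr 1
  have hff : ∀ ξ, (𝓕 f : 𝓢(ℝ, ℂ)) ξ = P ξ := by
    intro ξ
    have h1 : (𝓕 f : 𝓢(ℝ, ℂ)) = S := FourierTransform.fourier_fourierInv_eq S
    rw [h1]
    rfl
  let p : ℝ → ℝ := fun x => M⁻¹ * ‖t1 X x‖ ^ 2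
  have hp : ∀ x, (p x : ℂ) = t1 P x := by
    intro x
    have h1 : t1 P x = ((M⁻¹ : ℝ) : ℂ) * t1 Q x := by
      unfold t1
      rw [← integral_const_mul]
      refine integral_congr_ae (Filter.Eventually.of_forall fun ξ => ?_)
      simp only [P]
      ring
    rw [h1, hT]
    simp only [p]
    push_cast
    ring
  have hP0 : ∀ ξ, P ξ ≠ 0 → |ξ| ≤ c := by
    intro ξ h
    exact hQ0 ξ (right_ne_zero_of_mul h)
  have hsum : ∀ x : ℝ, ∑' n : ℤ, f (x + n) = 1 := by
    intro x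
    rw [SchwartzMap.tsum_eq_tsum_fourier]
    rw [tsum_eq_single (0 : ℤ)]
    · rw [hff]
      simp only [P, Int.cast_zero, hQ00]
      rw [← Complex.ofReal_mul, inv_mul_cancel₀ hMpos.ne']
      simp
    · intro n hn
      rw [hff]
      have : P n = 0 := by
        by_contra h
        have h1 := hP0 _ h
        have h2 : (1 : ℝ) ≤ |(n : ℝ)| := by
          have : (1 : ℤ) ≤ |n| := Int.one_le_abs hn
          exact_mod_cast this
        linarith
      rw [this, zero_mul]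
  refine ⟨P, p, hPs, hPc, hP0, hp, fun x => by positivity, fun x => ?_⟩
  have h1 : HasSum (fun n : ℤ => f (x + n)) 1 := by
    have hs : Summable (fun n : ℤ => f (x + n)) := by
      by_contra hn
      have := hsum x
      rw [tsum_eq_zero_of_not_summable hn] at this
      exact zero_ne_one this
    rw [← hsum x]
    exact hs.hasSum
  have h2 : HasSum (fun l : ℤ => f (x + ((-l : ℤ) : ℝ))) 1 :=
    (Equiv.neg ℤ).hasSum_iff.2 h1
  have h3 : HasSum (fun l : ℤ => ((p (x - l) : ℝ) : ℂ)) ((1 : ℝ) : ℂ) := by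
    rw [Complex.ofReal_one]
    refine h2.congr_fun ?_ |> fun h => h
    intro l
    simp only [hp, ← hft]
    congr 1
    push_cast
    ring
  exact (Complex.hasSum_ofReal).1 h3

lemma hasSum_mul {ι κ : Type} {f : ι → ℝ} {g : κ → ℝ} {s t : ℝ} (hf : HasSum f s)
    (hg : HasSum g t) (hf' : ∀ i, 0 ≤ f i) (hg' : ∀ i, 0 ≤ g i) :
    HasSum (fun x : ι × κ => f x.1 * g x.2) (s * t) :=
  hf.mul hg (hf.summable.mul_of_nonneg hg.summable hf' hg')

/-- products of partition functions -/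
lemma prodSum {p : ℝ → ℝ} (hp : ∀ x, 0 ≤ p x) (hs : ∀ x, HasSum (fun l : ℤ => p (x - l)) 1)
    (m : ℕ) (y : Fin m → ℝ) : HasSum (fun l : Fin m → ℤ => ∏ i, p (y i - l i)) 1 := by
  induction m with
  | zero =>
    have h : (fun l : Fin 0 → ℤ => ∏ i, p (y i - l i)) = fun _ => 1 := by
      funext l; simp
    rw [h]
    exact hasSum_unique (fun _ : Fin 0 → ℤ => (1 : ℝ))
  | succ m ih =>
    have h1 := hasSum_mul (hs (y 0)) (ih (fun i => y i.succ)) (fun l => hp _)
      (fun l => Finset.prod_nonneg fun i _ => hp _)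
    rw [mul_one] at h1
    refine ((Fin.consEquiv fun _ => ℤ).hasSum_iff).1 (h1.congr_fun fun l => ?_)
    simp [Fin.prod_univ_succ, Fin.consEquiv]

lemma e_zero : e 0 = 1 := by unfold e; simp

lemma e_sum {ι : Type} (s : Finset ι) (f : ι → ℝ) : e (∑ i ∈ s, f i) = ∏ i ∈ s, e (f i) := by
  classical
  induction s using Finset.induction_on with
  | empty => simp [e_zero]
  | insert i s hi ih => rw [Finset.sum_insert hi, Finset.prod_insert hi, e_add, ih]

lemma tE {m : ℕ} (P : ℝ → ℂ) (y : E m) :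
    ∫ ξ : E m, e ⟪y, ξ⟫ * ∏ i, P (ξ i) = ∏ i, t1 P (y i) := by
  have h1 := (PiLp.volume_preserving_toLp (Fin m)).integral_comp
    (MeasurableEquiv.toLp 2 (Fin m → ℝ)).measurableEmbedding
    (fun ξ : E m => e ⟪y, ξ⟫ * ∏ i, P (ξ i))
  rw [← h1]
  have h2 : ∀ x : Fin m → ℝ, e ⟪y, WithLp.toLp 2 x⟫ * ∏ i, P ((WithLp.toLp 2 x : E m) i) =
      ∏ i, (e (y i * x i) * P (x i)) := by
    intro x
    rw [Finset.prod_mul_distrib, ← e_sum]
    congr 2
    rw [PiLp.inner_apply]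
    refine Finset.sum_congr rfl fun i _ => ?_
    simp [mul_comm]
  simp only [h2]
  exact integral_fintype_prod_volume_eq_prod (fun i (v : ℝ) => e (y i * v) * P v)

lemma tZ {m : ℕ} (P : ℝ → ℂ) (z : Z m) :
    TF (fun ζ : Z m => P ζ.1 * ((∏ i, P (ζ.2.1 i)) * P ζ.2.2)) z =
      t1 P z.1 * ((∏ i, t1 P (z.2.1 i)) * t1 P z.2.2) := by
  unfold TF
  have h1 : ∀ ζ : Z m, e (ph z ζ) * (P ζ.1 * ((∏ i, P (ζ.2.1 i)) * P ζ.2.2)) =
      (e (z.1 * ζ.1) * P ζ.1) *
        ((e ⟪z.2.1, ζ.2.1⟫ * ∏ i, P (ζ.2.1 i)) * (e (z.2.2 * ζ.2.2) * P ζ.2.2)) := by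
    intro ζ
    unfold ph
    rw [e_add, e_add]
    ring
  simp only [h1]
  have h2 := integral_prod_mul (μ := (volume : Measure ℝ)) (ν := (volume : Measure (E m × ℝ)))
    (fun a : ℝ => e (z.1 * a) * P a)
    (fun η : E m × ℝ => (e ⟪z.2.1, η.1⟫ * ∏ i, P (η.1 i)) * (e (z.2.2 * η.2) * P η.2))
  have h3 := integral_prod_mul (μ := (volume : Measure (E m))) (ν := (volume : Measure ℝ))
    (fun ξ : E m => e ⟪z.2.1, ξ⟫ * ∏ i, P (ξ i)) (fun b : ℝ => e (z.2.2 * b) * P b)
  refine h2.trans ?_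
  congr 1
  refine h3.trans ?_
  rw [tE]
  rfl

lemma norm_le {m : ℕ} {c : ℝ} (hc : c = 1 / (1000 * (m + 1))) (ζ : Z m) (h1 : |ζ.1| ≤ c)
    (h2 : ∀ i, |ζ.2.1 i| ≤ c) (h3 : |ζ.2.2| ≤ c) : ‖ζ‖ ≤ 1 / 1000 := by
  have hm : (0 : ℝ) ≤ m := Nat.cast_nonneg m
  have hc0 : 0 < c := by rw [hc]; positivity
  have hc1 : c * (m + 1) = 1 / 1000 := by rw [hc]; field_simp
  have hc2 : c ≤ 1 / 1000 := by nlinarith
  have h4 : ‖ζ.2.1‖ ≤ 1 / 1000 := by
    have h5 : ‖ζ.2.1‖ ^ 2 ≤ (1 / 1000) ^ 2 := by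
      rw [EuclideanSpace.real_norm_sq_eq]
      have h6 : ∑ i, ζ.2.1 i ^ 2 ≤ ∑ _i : Fin m, c ^ 2 := by
        refine Finset.sum_le_sum fun i _ => ?_
        rw [← sq_abs]
        exact pow_le_pow_left₀ (abs_nonneg _) (h2 i) 2
      refine h6.trans ?_
      rw [Finset.sum_const, Finset.card_univ, Fintype.card_fin, nsmul_eq_mul, ← hc1]
      nlinarith [sq_nonneg c]
    exact le_of_sq_le_sq h5 (by norm_num)
  refine max_le (h1.trans hc2) (max_le h4 (h3.trans hc2))

end PSX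

open PSX in
theorem pf_PSX : T_PSX := by
  intro m
  have hm : (0 : ℝ) ≤ m := Nat.cast_nonneg m
  set c : ℝ := 1 / (1000 * (m + 1)) with hc
  have hc0 : 0 < c := by rw [hc]; positivity
  have hc1 : c < 1 := by
    rw [hc, div_lt_one (by positivity)]
    linarith
  obtain ⟨P, p, hPs, hPc, hP0, hpP, hp0, hsum⟩ := one c hc0 hc1
  refine ⟨fun ζ => P ζ.1 * ((∏ i, P (ζ.2.1 i)) * P ζ.2.2),
    fun z => p z.1 * ((∏ i, p (z.2.1 i)) * p z.2.2), ?_⟩
  have hsupp : ∀ ζ : Z m, P ζ.1 * ((∏ i, P (ζ.2.1 i)) * P ζ.2.2) ≠ 0 → ‖ζ‖ ≤ 1 / 1000 := by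
    intro ζ h
    have h1 := left_ne_zero_of_mul h
    have h2 := right_ne_zero_of_mul h
    have h3 := left_ne_zero_of_mul h2
    have h4 := right_ne_zero_of_mul h2
    refine norm_le hc ζ (hP0 _ h1) (fun i => hP0 _ ?_) (hP0 _ h4)
    exact Finset.prod_ne_zero_iff.1 h3 i (Finset.mem_univ i)
  have hsm : ContDiff ℝ (⊤ : ℕ∞) fun ζ : Z m => P ζ.1 * ((∏ i, P (ζ.2.1 i)) * P ζ.2.2) := by
    refine (hPs.comp contDiff_fst).mul (ContDiff.mul ?_ (hPs.comp (contDiff_snd.comp contDiff_snd)))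
    refine contDiff_prod fun i _ => hPs.comp ?_
    exact (EuclideanSpace.proj (𝕜 := ℝ) i).contDiff.comp (contDiff_fst.comp contDiff_snd)
  refine ⟨⟨hsm, ?_⟩, hsupp, fun z => ?_, fun z => ?_, fun z => ?_⟩
  · refine HasCompactSupport.intro (isCompact_closedBall (0 : Z m) (1 / 1000)) fun ζ hζ => ?_
    by_contra h
    apply hζ
    rw [Metric.mem_closedBall, dist_zero_right]
    exact hsupp ζ h
  · rw [tZ]
    push_cast
    simp only [hpP]
  · exact mul_nonneg (hp0 _) (mul_nonneg (Finset.prod_nonneg fun i _ => hp0 _) (hp0 _))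
  · have h1 := hasSum_mul (prodSum hp0 hsum m (fun i => z.2.1 i)) (hsum z.2.2)
      (fun l => Finset.prod_nonneg fun i _ => hp0 _) (fun l => hp0 _)
    have h2 := hasSum_mul (hsum z.1) h1 (fun l => hp0 _)
      (fun l => mul_nonneg (Finset.prod_nonneg fun i _ => hp0 _) (hp0 _))
    rw [mul_one, mul_one] at h2
    exact h2.congr_fun fun l => rfl

end Pool.Agent.H18.G
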