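import Pool.Agent.H83.G.Targets1

/-!
# (WM) cap multipliers on weighted L²
-/

set_option autoImplicit false

namespace Pool.Agent.H18.G

open MeasureTheory Set Pool.Agent.H83.G
open scoped ENNReal NNReal RealInnerProductSpace

namespace WM

instance haarY (m : ℕ) : (volume : Measure (E m × ℝ)).IsAddHaarMeasure :=
  Measure.prod.instIsAddHaarMeasure (volume : Measure (E m)) (volume : Measure ℝ)

instance haarZ (m : ℕ) : (volume : Measure (Z m)).IsAddHaarMeasure :=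
  Measure.prod.instIsAddHaarMeasure (volume : Measure ℝ) (volume : Measure (E m × ℝ))

/-- Cauchy-Schwarz -/
lemma cs {α : Type} [MeasurableSpace α] (μ : Measure α) {w f : α → ℝ≥0∞} (hw : Measurable w)
    (hf : Measurable f) : (∫⁻ a, w a * f a ∂μ) ^ 2 ≤ (∫⁻ a, w a ∂μ) * ∫⁻ a, w a * f a ^ 2 ∂μ := by
  have h1 := ENNReal.lintegral_mul_le_Lp_mul_Lq μ Real.HolderConjugate.two_two
    (f := fun a => w a ^ (1 / 2 : ℝ)) (g := fun a => w a ^ (1 / 2 : ℝ) * f a)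
    (hw.pow_const _).aemeasurable ((hw.pow_const _).mul hf).aemeasurable
  have e1 : ∀ a, ((fun a => w a ^ (1 / 2 : ℝ)) * fun a => w a ^ (1 / 2 : ℝ) * f a) a =
      w a * f a := by
    intro a
    rw [Pi.mul_apply, ← mul_assoc, ← ENNReal.rpow_add_of_nonneg _ _ (by norm_num) (by norm_num)]
    norm_num
  have e2 : ∀ a, (w a ^ (1 / 2 : ℝ)) ^ (2 : ℝ) = w a := by
    intro a
    rw [← ENNReal.rpow_mul]
    norm_num
  have e3 : ∀ a, (w a ^ (1 / 2 : ℝ) * f a) ^ (2 : ℝ) = w a * f a ^ 2 := by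
    intro a
    rw [ENNReal.mul_rpow_of_nonneg _ _ (by norm_num), e2, ENNReal.rpow_two]
  simp only [e1, e2, e3] at h1
  have h2 := pow_le_pow_left' h1 2
  refine h2.trans (le_of_eq ?_)
  rw [mul_pow]
  have e4 : ∀ x : ℝ≥0∞, (x ^ (1 / 2 : ℝ)) ^ 2 = x := by
    intro x
    rw [← ENNReal.rpow_two, ← ENNReal.rpow_mul]
    norm_num
  rw [e4, e4]

/-- the shift -/
noncomputable def sh {m : ℕ} (η : E m) (s : ℝ) (u : ℝ × E m) : Z m :=
  (u.1 - s⁻¹ * ⟪u.2, η⟫, s⁻¹ • u.2, 0)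

lemma continuous_sh {m : ℕ} (η : E m) (s : ℝ) : Continuous (sh η s) := by
  unfold sh
  fun_prop

lemma Lo_sh {m : ℕ} (η : E m) {s : ℝ} (hs : 0 < s) (u : ℝ × E m) :
    ‖Lo η s (sh η s u)‖ = ‖u‖ := by
  have h : Lo η s (sh η s u) = (u.1, u.2, 0) := by
    unfold Lo sh
    refine Prod.ext ?_ (Prod.ext ?_ ?_)
    · simp [real_inner_smul_left]
    · simp only [mul_zero, zero_smul, add_zero]
      rw [smul_smul, mul_inv_cancel₀ hs.ne', one_smul]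
    · simp
  rw [h, Prod.norm_def, Prod.norm_def, Prod.norm_def]
  simp

lemma continuous_Lo {m : ℕ} (η : E m) (s : ℝ) : Continuous (Lo η s) := by
  unfold Lo
  fun_prop

/-- the weight moves slowly -/
lemma weight {m N : ℕ} (hLOA : T_LOA) (hLOB : T_LOB) (hWT1 : T_WT1) {D : ℝ} (hD : 0 ≤ D)
    {η η₁ : E m} {s s₁ r : ℝ} (x : Z m) (hs : 0 < s) (hs₁ : 0 < s₁) (hr : 1 ≤ r)
    (h1 : s ≤ D * r * s₁) (h2 : ‖η₁ - η‖ ≤ D * r * s₁) (z : Z m) (u : ℝ × E m) :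
    wt N (r⁻¹ • Lo η s (z + sh η₁ s₁ u) - x) ≤
      (1 + D) ^ N * (1 + ‖u‖) ^ N * wt N (r⁻¹ • Lo η s z - x) := by
  have hr0 : 0 < r := by linarith
  obtain ⟨hpos, -, hmul, -⟩ := hWT1 m N
  set y : Z m := r⁻¹ • Lo η s (sh η₁ s₁ u) with hy
  have e1 : r⁻¹ • Lo η s (z + sh η₁ s₁ u) - x + -y = r⁻¹ • Lo η s z - x := by
    rw [((hLOA m).1 η s z (sh η₁ s₁ u)).1, smul_add, hy]
    abel
  have h3 := hmul (r⁻¹ • Lo η s (z + sh η₁ s₁ u) - x) (-y)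
  rw [e1] at h3
  have h4 : ‖-y‖ ≤ (1 + D) * ‖u‖ := by
    rw [norm_neg, hy, norm_smul, norm_inv, Real.norm_eq_abs, abs_of_pos hr0,
      inv_mul_le_iff₀ hr0]
    have h5 := (hLOB m D hD).2.2.2 η η₁ s s₁ r (sh η₁ s₁ u) hs hs₁ hr h1 h2 rfl
    rw [Lo_sh η₁ hs₁] at h5
    linarith
  have h6 : wt N (-y) = ((1 + ‖-y‖) ^ N)⁻¹ := rfl
  have h7 : 0 < (1 + ‖-y‖) ^ N := by positivity
  have h8 : wt N (r⁻¹ • Lo η s (z + sh η₁ s₁ u) - x) ≤
      (1 + ‖-y‖) ^ N * wt N (r⁻¹ • Lo η s z - x) := by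
    rw [h6] at h3
    rw [← div_le_iff₀' h7, div_eq_mul_inv]
    exact h3
  refine h8.trans (mul_le_mul_of_nonneg_right ?_ (hpos _).1.le)
  rw [← mul_pow]
  refine pow_le_pow_left₀ (by positivity) ?_ N
  have := norm_nonneg u
  nlinarith

end WM

open WM in
theorem pf_WM (hKER : T_KER) (hLOA : T_LOA) (hLOB : T_LOB) (hWT1 : T_WT1) (hWT2 : T_WT2)
    (hSCH : T_SCH) : T_WM := by
  intro m N L D hL hD
  obtain ⟨C0, hC0⟩ := hKER m L
  obtain ⟨C2, -, -, hC2⟩ := hWT2 m L (by omega)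
  obtain ⟨C3, -, -, hC3⟩ := hWT2 m (L - N) (by omega)
  refine ⟨C0 ^ 2 * C2 * ((1 + D) ^ N).toNNReal * C3, ?_⟩
  intro φ hφ η η₁ s s₁ r x G hs hs₁ hr h1 h2 hG hGs
  have hc := (hSCH m G hG).1
  set W : Z m → ℝ≥0∞ := fun z => ENNReal.ofReal (wt N (r⁻¹ • Lo η s z - x)) with hW
  set w : ℝ × E m → ℝ≥0∞ := fun u => ENNReal.ofReal (((1 + ‖u‖) ^ L)⁻¹) with hw
  have hwm : Measurable w := by
    rw [hw]
    fun_prop
  have hWm : Measurable W := by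
    rw [hW]
    have := (hWT1 m N).2.1
    have h3 := continuous_Lo η s
    fun_prop
  have hsh := continuous_sh η₁ s₁
  have step1 : ∀ z, ‖TP φ η₁ s₁ G z‖ₑ ^ 2 ≤
      (C0 : ℝ≥0∞) ^ 2 * C2 * ∫⁻ u, w u * ‖TF G (z - sh η₁ s₁ u)‖ₑ ^ 2 := by
    intro z
    have h3 := hC0 φ hφ η₁ s₁ G hs₁ hG hGs z
    have h4 := pow_le_pow_left' h3 2
    rw [mul_pow] at h4
    refine h4.trans ?_
    rw [mul_assoc]
    refine mul_le_mul' le_rfl ?_
    have hm : Measurable fun u : ℝ × E m => ‖TF G (z - sh η₁ s₁ u)‖ₑ :=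
      (hc.comp (continuous_const.sub hsh)).measurable.enorm
    exact (cs volume hwm hm).trans (mul_le_mul' hC2 le_rfl)
  have step2 : ∀ u, ∫⁻ z, ‖TF G (z - sh η₁ s₁ u)‖ₑ ^ 2 * W z ≤
      ENNReal.ofReal ((1 + D) ^ N) * ENNReal.ofReal ((1 + ‖u‖) ^ N) *
        ∫⁻ z, ‖TF G z‖ₑ ^ 2 * W z := by
    intro u
    have e1 : ∫⁻ z, ‖TF G (z - sh η₁ s₁ u)‖ₑ ^ 2 * W z =
        ∫⁻ z, ‖TF G z‖ₑ ^ 2 * W (z + sh η₁ s₁ u) := by
      rw [← lintegral_sub_right_eq_self (fun z => ‖TF G z‖ₑ ^ 2 * W (z + sh η₁ s₁ u))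
        (sh η₁ s₁ u)]
      simp only [sub_add_cancel]
    rw [e1, ← lintegral_const_mul' _ _ (ENNReal.mul_ne_top ENNReal.ofReal_ne_top
      ENNReal.ofReal_ne_top)]
    refine lintegral_mono fun z => ?_
    simp only []
    rw [mul_left_comm]
    refine mul_le_mul' le_rfl ?_
    simp only [hW]
    rw [← ENNReal.ofReal_mul (by positivity), ← ENNReal.ofReal_mul (by positivity)]
    exact ENNReal.ofReal_le_ofReal (weight hLOA hLOB hWT1 hD x hs hs₁ hr h1 h2 z u)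
  have hmz : Measurable (Function.uncurry fun (z : Z m) (u : ℝ × E m) =>
      w u * ‖TF G (z - sh η₁ s₁ u)‖ₑ ^ 2 * W z) := by
    have h5 : Continuous fun q : Z m × (ℝ × E m) => TF G (q.1 - sh η₁ s₁ q.2) :=
      hc.comp (continuous_fst.sub (hsh.comp continuous_snd))
    exact ((hwm.comp measurable_snd).mul (h5.measurable.enorm.pow_const 2)).mul
      (hWm.comp measurable_fst)
  calc ∫⁻ z, ‖TP φ η₁ s₁ G z‖ₑ ^ 2 * W z
      ≤ ∫⁻ z, (C0 : ℝ≥0∞) ^ 2 * C2 * ∫⁻ u, w u * ‖TF G (z - sh η₁ s₁ u)‖ₑ ^ 2 * W z := by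
        refine lintegral_mono fun z => ?_
        refine (mul_le_mul' (step1 z) le_rfl).trans (le_of_eq ?_)
        rw [mul_assoc, ← lintegral_mul_const' _ _ ENNReal.ofReal_ne_top]
    _ = (C0 : ℝ≥0∞) ^ 2 * C2 * ∫⁻ z, ∫⁻ u, w u * ‖TF G (z - sh η₁ s₁ u)‖ₑ ^ 2 * W z :=
        lintegral_const_mul' _ _ (by finiteness)
    _ = (C0 : ℝ≥0∞) ^ 2 * C2 * ∫⁻ u, ∫⁻ z, w u * ‖TF G (z - sh η₁ s₁ u)‖ₑ ^ 2 * W z := by
        rw [lintegral_lintegral_swap hmz.aemeasurable]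
    _ ≤ (C0 : ℝ≥0∞) ^ 2 * C2 * ∫⁻ u : ℝ × E m, (ENNReal.ofReal ((1 + D) ^ N) *
          ∫⁻ z, ‖TF G z‖ₑ ^ 2 * W z) * ENNReal.ofReal (((1 + ‖u‖) ^ (L - N))⁻¹) := by
        refine mul_le_mul' le_rfl (lintegral_mono fun u => ?_)
        have e2 : ∫⁻ z, w u * ‖TF G (z - sh η₁ s₁ u)‖ₑ ^ 2 * W z =
            w u * ∫⁻ z, ‖TF G (z - sh η₁ s₁ u)‖ₑ ^ 2 * W z := by
          rw [← lintegral_const_mul' _ _ ENNReal.ofReal_ne_top]
          simp only [mul_assoc]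
          rfl
        simp only []
        rw [e2]
        refine (mul_le_mul' le_rfl (step2 u)).trans (le_of_eq ?_)
        have e3 : ENNReal.ofReal (((1 + ‖u‖) ^ (L - N))⁻¹) =
            w u * ENNReal.ofReal ((1 + ‖u‖) ^ N) := by
          simp only [hw]
          rw [← ENNReal.ofReal_mul (by positivity)]
          congr 1
          have h9 : (1 + ‖u‖) ^ L = (1 + ‖u‖) ^ (L - N) * (1 + ‖u‖) ^ N := by
            rw [← pow_add]
            congr 1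
            omega
          have h10 : 0 < 1 + ‖u‖ := by positivity
          rw [h9]
          field_simp
        rw [e3]
        ring
    _ ≤ (C0 : ℝ≥0∞) ^ 2 * C2 * ((ENNReal.ofReal ((1 + D) ^ N) *
          ∫⁻ z, ‖TF G z‖ₑ ^ 2 * W z) * C3) := by
        refine mul_le_mul' le_rfl ?_
        rw [lintegral_const_mul _ (by fun_prop)]
        exact mul_le_mul' le_rfl hC3
    _ = _ := by
        have e4 : ((((1 + D) ^ N).toNNReal : ℝ≥0) : ℝ≥0∞) = ENNReal.ofReal ((1 + D) ^ N) := rfl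
        push_cast
        rw [e4]
        ring

end Pool.Agent.H18.G
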