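import Pool.Agent.H83.G.Targets1

/-!
# (WT3) sums of the weights
-/

set_option autoImplicit false

namespace Pool.Agent.H18.G

open MeasureTheory Set Pool.Agent.H83.G
open scoped ENNReal NNReal RealInnerProductSpace

namespace WT3

instance haarY (m : ℕ) : (volume : Measure (E m × ℝ)).IsAddHaarMeasure :=
  Measure.prod.instIsAddHaarMeasure (volume : Measure (E m)) (volume : Measure ℝ)

instance haarZ (m : ℕ) : (volume : Measure (Z m)).IsAddHaarMeasure :=
  Measure.prod.instIsAddHaarMeasure (volume : Measure ℝ) (volume : Measure (E m × ℝ))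

/-- the measure of a ball of radius `1/2` -/
noncomputable def vb (m : ℕ) : ℝ≥0∞ := volume (Metric.ball (0 : Z m) (1 / 2))

lemma vb_pos (m : ℕ) : vb m ≠ 0 := (Metric.measure_ball_pos volume _ (by norm_num)).ne'

lemma vb_top (m : ℕ) : vb m ≠ ∞ := measure_ball_lt_top.ne

/-- sums over separated points -/
lemma sepsum {m : ℕ} {ι : Type} [Countable ι] (p : ι → Z m)
    (hp : ∀ i j, i ≠ j → 1 ≤ ‖p i - p j‖) (a : ι → ℝ≥0∞) (F : Z m → ℝ≥0∞) (K : ℝ≥0∞)
    (hK : K ≠ ∞) (h : ∀ i z, ‖z - p i‖ < 1 / 2 → a i ≤ K * F z) :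
    ∑' i, a i ≤ (vb m)⁻¹ * (K * ∫⁻ z, F z) := by
  have h1 : (∑' i, a i) * vb m ≤ K * ∫⁻ z, F z := by
    rw [← ENNReal.tsum_mul_right]
    have h2 : ∀ i, a i * vb m ≤ ∫⁻ z in Metric.ball (p i) (1 / 2), K * F z := by
      intro i
      have h3 : vb m = volume (Metric.ball (p i) (1 / 2)) :=
        (Measure.addHaar_ball_center volume (p i) (1 / 2)).symm
      rw [h3, ← setLIntegral_const]
      refine setLIntegral_mono' Metric.isOpen_ball.measurableSet fun z hz => h i z ?_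
      rwa [Metric.mem_ball, dist_eq_norm] at hz
    refine (ENNReal.tsum_le_tsum h2).trans ?_
    rw [← lintegral_iUnion (fun i => Metric.isOpen_ball.measurableSet)]
    · rw [← lintegral_const_mul' _ _ hK]
      exact setLIntegral_le_lintegral _ _
    · intro i j hij
      refine Metric.ball_disjoint_ball ?_
      rw [dist_eq_norm]
      have := hp i j hij
      linarith
  rw [mul_comm] at h1
  rw [← ENNReal.div_eq_inv_mul]
  rw [ENNReal.le_div_iff_mul_le (Or.inl (vb_pos m)) (Or.inl (vb_top m)), mul_comm]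
  exact h1

lemma zc_sep {m : ℕ} (l l' : Zi m) (h : l ≠ l') : 1 ≤ ‖zc l - zc l'‖ := by
  have key : ∀ a b : ℤ, a ≠ b → (1 : ℝ) ≤ |(a : ℝ) - b| := by
    intro a b hab
    have : (1 : ℤ) ≤ |a - b| := Int.one_le_abs (sub_ne_zero.2 hab)
    exact_mod_cast this
  by_cases h1 : l.1 = l'.1
  · by_cases h2 : l.2.1 = l'.2.1
    · have h3 : l.2.2 ≠ l'.2.2 := by
        intro h3
        exact h (Prod.ext h1 (Prod.ext h2 h3))
      refine (key _ _ h3).trans ?_
      exact (norm_snd_le ((zc l - zc l').2)).trans (norm_snd_le (zc l - zc l'))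
    · obtain ⟨i, hi⟩ := Function.ne_iff.1 h2
      refine (key _ _ hi).trans ?_
      refine le_trans ?_ ((norm_fst_le ((zc l - zc l').2)).trans (norm_snd_le (zc l - zc l')))
      exact PiLp.norm_apply_le (p := 2) ((zc l - zc l').2.1) i
  · refine (key _ _ h1).trans ?_
    exact norm_fst_le (zc l - zc l')

lemma floor_near {m : ℕ} (x : Z m) : ∃ l : Zi m, ‖x - zc l‖ ≤ (m : ℝ) + 1 := by
  have hm : (0 : ℝ) ≤ m := Nat.cast_nonneg m
  have key : ∀ a : ℝ, |a - (⌊a⌋ : ℝ)| ≤ 1 := by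
    intro a
    rw [abs_of_nonneg (sub_nonneg.2 (Int.floor_le a))]
    linarith [Int.lt_floor_add_one a]
  refine ⟨(⌊x.1⌋, fun i => ⌊x.2.1 i⌋, ⌊x.2.2⌋), ?_⟩
  refine max_le ?_ (max_le ?_ ?_)
  · exact (key x.1).trans (by linarith)
  · have h1 : ‖(x - zc (⌊x.1⌋, fun i => ⌊x.2.1 i⌋, ⌊x.2.2⌋)).2.1‖ ^ 2 ≤ ((m : ℝ) + 1) ^ 2 := by
      rw [EuclideanSpace.real_norm_sq_eq]
      have h2 : ∀ i ∈ Finset.univ, (x - zc (⌊x.1⌋, fun i => ⌊x.2.1 i⌋, ⌊x.2.2⌋)).2.1 i ^ 2 ≤ 1 := by
        intro i _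
        have h3 := key (x.2.1 i)
        have h4 : (x - zc (⌊x.1⌋, fun i => ⌊x.2.1 i⌋, ⌊x.2.2⌋)).2.1 i =
          x.2.1 i - (⌊x.2.1 i⌋ : ℝ) := rfl
        rw [h4, ← sq_abs]
        exact pow_le_one₀ (abs_nonneg _) h3
      refine (Finset.sum_le_sum h2).trans ?_
      rw [Finset.sum_const, Finset.card_univ, Fintype.card_fin, nsmul_eq_mul, mul_one]
      nlinarith
    exact le_of_sq_le_sq h1 (by positivity)
  · exact (key x.2.2).trans (by linarith)

/-- slow variation -/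
lemma slow {m : ℕ} (N : ℕ) (a b : Z m) (h : ‖b - a‖ ≤ 1 / 2) :
    wt N a ≤ (3 / 2) ^ N * wt N b := by
  unfold wt
  have ha : 0 < 1 + ‖a‖ := by positivity
  have hb : 0 < 1 + ‖b‖ := by positivity
  have h1 : 1 + ‖b‖ ≤ 3 / 2 * (1 + ‖a‖) := by
    have h2 : ‖b‖ ≤ ‖b - a‖ + ‖a‖ := by
      have := norm_add_le (b - a) a
      rwa [sub_add_cancel] at this
    have := norm_nonneg a
    linarith
  have h3 : (1 + ‖b‖) ^ N ≤ (3 / 2) ^ N * (1 + ‖a‖) ^ N := by
    rw [← mul_pow]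
    exact pow_le_pow_left₀ hb.le h1 N
  rw [← div_eq_mul_inv, le_div_iff₀ (by positivity), inv_mul_le_iff₀ (by positivity)]
  linarith

lemma slow' {m : ℕ} (N : ℕ) (a b : Z m) (h : ‖b - a‖ ≤ 1 / 2) :
    ENNReal.ofReal (wt N a) ≤ ENNReal.ofReal ((3 / 2) ^ N) * ENNReal.ofReal (wt N b) := by
  rw [← ENNReal.ofReal_mul (by positivity)]
  exact ENNReal.ofReal_le_ofReal (slow N a b h)

end WT3

open WT3 in
theorem pf_WT3 (hWT2 : T_WT2) : T_WT3 := by
  intro m N hN
  obtain ⟨C, hC1, hC2, -⟩ := hWT2 m N hN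
  obtain ⟨D, hD1, -, -⟩ := hWT2 m (m + 3) le_rfl
  have hv0 := vb_pos m
  have hvt : (vb m)⁻¹ ≠ ∞ := ENNReal.inv_ne_top.2 hv0
  have hwtpos : ∀ (N : ℕ) (z : Z m), 0 ≤ wt N z := fun N z => by unfold wt; positivity
  -- the constants
  set A1 : ℝ≥0∞ := (vb m)⁻¹ * (ENNReal.ofReal ((3 / 2) ^ N) * C) with hA1
  set A2 : ℝ≥0∞ := (vb m)⁻¹ * (ENNReal.ofReal ((3 / 2) ^ (m + 3)) * D) with hA2
  set A3 : ℝ≥0∞ := (vb m)⁻¹ * ((ENNReal.ofReal ((3 / 2) ^ N) * ENNReal.ofReal ((3 / 2) ^ N)) * C)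
    with hA3
  have hT1 : A1 ≠ ∞ := by rw [hA1]; finiteness
  have hT2 : A2 ≠ ∞ := by rw [hA2]; finiteness
  have hT3 : A3 ≠ ∞ := by rw [hA3]; finiteness
  have hsum : A1 + A2 + A3 ≠ ∞ := by finiteness
  have hcoe : (((A1 + A2 + A3).toNNReal : ℝ≥0) : ℝ≥0∞) = A1 + A2 + A3 := ENNReal.coe_toNNReal hsum
  have i1 : A1 ≤ A1 + A2 + A3 := by rw [add_assoc]; exact le_self_add
  have i2 : A2 ≤ A1 + A2 + A3 := by rw [add_comm A1 A2, add_assoc]; exact le_self_add
  have i3 : A3 ≤ A1 + A2 + A3 := le_add_self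
  refine ⟨(A1 + A2 + A3).toNNReal, ?_, ?_, ?_, ?_, floor_near⟩
  · intro c x hc hc1
    rw [hcoe]
    refine le_trans ?_ (mul_le_mul' i1 le_rfl)
    have h1 := sepsum (zc (m := m)) zc_sep (fun l => ENNReal.ofReal (wt N (c • zc l - x)))
      (fun z => ENNReal.ofReal (wt N (c • z - x))) (ENNReal.ofReal ((3 / 2) ^ N))
      ENNReal.ofReal_ne_top fun l z hz => slow' N _ _ ?_
    · refine h1.trans ?_
      rw [hA1, mul_assoc, mul_assoc]
      exact mul_le_mul' le_rfl (mul_le_mul' le_rfl (hC1 c x hc))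
    · have e : c • z - x - (c • zc l - x) = c • (z - zc l) := by
        rw [smul_sub]; abel
      rw [e, norm_smul, Real.norm_eq_abs, abs_of_pos hc]
      have := norm_nonneg (z - zc l)
      nlinarith
  · intro x ρ S hρ hS
    rw [hcoe]
    refine le_trans ?_ (mul_le_mul' i2 le_rfl)
    have h1 : ∀ l : S, ENNReal.ofReal (wt N (x - zc (l : Zi m))) ≤
        ENNReal.ofReal (wt (m + 3) (x - zc (l : Zi m))) *
          ENNReal.ofReal ((1 + ρ) ^ (m + 3) * ((1 + ρ) ^ N)⁻¹) := by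
      intro l
      rw [← ENNReal.ofReal_mul (hwtpos _ _)]
      refine ENNReal.ofReal_le_ofReal ?_
      have h2 := hS l l.2
      obtain ⟨M, rfl⟩ : ∃ M, N = (m + 3) + M := ⟨N - (m + 3), by omega⟩
      have h3 : (1 + ρ) ^ (m + 3) * ((1 + ρ) ^ (m + 3 + M))⁻¹ = ((1 + ρ) ^ M)⁻¹ := by
        have h5 : 0 < 1 + ρ := by linarith
        have h6 : (1 + ρ) ^ (m + 3) ≠ 0 := by positivity
        rw [pow_add (1 + ρ) (m + 3) M, mul_inv, ← mul_assoc, mul_inv_cancel₀ h6, one_mul]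
      rw [h3]
      unfold wt
      rw [pow_add, mul_inv]
      refine mul_le_mul_of_nonneg_left ?_ (by positivity)
      exact inv_anti₀ (by positivity) (pow_le_pow_left₀ (by positivity) (by linarith) M)
    refine (ENNReal.tsum_le_tsum h1).trans ?_
    rw [ENNReal.tsum_mul_right]
    refine mul_le_mul' ?_ le_rfl
    have h4 := sepsum (fun l : S => zc (m := m) (l : Zi m))
      (fun i j hij => zc_sep _ _ (fun h => hij (Subtype.ext h)))
      (fun l => ENNReal.ofReal (wt (m + 3) (x - zc (l : Zi m))))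
      (fun z => ENNReal.ofReal (wt (m + 3) ((1 : ℝ) • z - x))) (ENNReal.ofReal ((3 / 2) ^ (m + 3)))
      ENNReal.ofReal_ne_top fun l z hz => ?_
    · refine h4.trans ?_
      rw [hA2]
      refine mul_le_mul' le_rfl (mul_le_mul' le_rfl ?_)
      refine (hD1 1 x one_pos).trans ?_
      simp
    · have e1 : wt (m + 3) (x - zc (l : Zi m)) = wt (m + 3) (zc (l : Zi m) - x) := by
        unfold wt
        rw [norm_sub_rev]
      rw [e1, one_smul]
      refine slow' _ _ _ ?_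
      have e : z - x - (zc (l : Zi m) - x) = z - zc (l : Zi m) := by abel
      rw [e]
      exact hz.le
  · intro x y
    rw [hcoe]
    refine le_trans ?_ (mul_le_mul' i3 le_rfl)
    have h1 := sepsum (zc (m := m)) zc_sep
      (fun l => ENNReal.ofReal (wt N (x - zc l) * wt N (zc l - y)))
      (fun z => ENNReal.ofReal (wt N (x - z) * wt N (z - y)))
      (ENNReal.ofReal ((3 / 2) ^ N) * ENNReal.ofReal ((3 / 2) ^ N))
      (by finiteness) fun l z hz => ?_
    · refine h1.trans ?_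
      rw [hA3, mul_assoc (vb m)⁻¹, mul_assoc (ENNReal.ofReal ((3 / 2) ^ N) * _)]
      exact mul_le_mul' le_rfl (mul_le_mul' le_rfl (hC2 x y))
    · rw [ENNReal.ofReal_mul (hwtpos _ _), ENNReal.ofReal_mul (hwtpos _ _)]
      have e1 := slow' N (x - zc l) (x - z) (by
        have e : x - z - (x - zc l) = -(z - zc l) := by abel
        rw [e, norm_neg]
        exact hz.le)
      have e2 := slow' N (zc l - y) (z - y) (by
        have e : z - y - (zc l - y) = z - zc l := by abel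
        rw [e]
        exact hz.le)
      refine (mul_le_mul' e1 e2).trans (le_of_eq ?_)
      ring
  · intro X y hX
    rw [hcoe]
    refine le_trans ?_ i1
    have h1 := sepsum (fun z : X => (z : Z m))
      (fun i j hij => hX i i.2 j j.2 (fun h => hij (Subtype.ext h)))
      (fun z => ENNReal.ofReal (wt N ((z : Z m) - y)))
      (fun z => ENNReal.ofReal (wt N ((1 : ℝ) • z - y))) (ENNReal.ofReal ((3 / 2) ^ N))
      ENNReal.ofReal_ne_top fun l z hz => ?_
    · have h2 : ∑ z ∈ X, ENNReal.ofReal (wt N (z - y)) =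
          ∑' z : X, ENNReal.ofReal (wt N ((z : Z m) - y)) := by
        rw [tsum_fintype]
        exact (Finset.sum_coe_sort X fun z => ENNReal.ofReal (wt N (z - y))).symm
      rw [h2]
      refine h1.trans ?_
      rw [hA1]
      refine mul_le_mul' le_rfl (mul_le_mul' le_rfl ?_)
      refine (hC1 1 y one_pos).trans ?_
      simp
    · rw [one_smul]
      refine slow' _ _ _ ?_
      have e : z - y - ((l : Z m) - y) = z - (l : Z m) := by abel
      rw [e]
      exact hz.le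

end Pool.Agent.H18.G
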